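import Mathlib
import Pool.Agent.Lib.helper19.Rigid

namespace Pool.Agent.Results.MP_27e890_gt.Yes

open TopologicalSpace

def Homogeneous (Y : Type) [TopologicalSpace Y] : Prop := ∀ x y : Y, ∃ h : Y ≃ₜ Y, h x = y

def SigmaHomogeneous (X : Type) [TopologicalSpace X] : Prop :=
  ∃ Z : ℕ → Set X, (∀ n, Homogeneous (Z n)) ∧ ⋃ n, Z n = Set.univ

def SigmaHomogeneousClosed (X : Type) [TopologicalSpace X] : Prop :=
  ∃ Z : ℕ → Set X, (∀ n, IsClosed (Z n) ∧ Homogeneous (Z n)) ∧ ⋃ n, Z n = Set.univ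

def ZeroDim (X : Type) [TopologicalSpace X] : Prop :=
  Nonempty X ∧ IsTopologicalBasis {s : Set X | IsClopen s}

theorem homog_equiv {A B : Type} [TopologicalSpace A] [TopologicalSpace B] (e : A ≃ₜ B)
    (h : Homogeneous B) : Homogeneous A := by
  intro x y
  obtain ⟨g, hg⟩ := h (e x) (e y)
  exact ⟨e.trans (g.trans e.symm), by simp [hg]⟩

theorem homog_sub {Y : Type} [TopologicalSpace Y] {A X : Set Y} (hA : A ⊆ X)
    (h : Homogeneous A) : Homogeneous (Subtype.val ⁻¹' A : Set X) :=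
  homog_equiv
    { toFun := fun x => ⟨x.1.1, x.2⟩
      invFun := fun x => ⟨⟨x.1, hA x.2⟩, x.2⟩
      left_inv := fun _ => rfl
      right_inv := fun _ => rfl
      continuous_toFun := by fun_prop
      continuous_invFun := by fun_prop } h

open Pool.Agent.Lib.helper19.Rigid in
theorem result : ∃ X : Set (ℕ → ZMod 2), SeparableSpace X ∧ MetrizableSpace X ∧ ZeroDim X ∧
    SigmaHomogeneous X ∧ ¬ SigmaHomogeneousClosed X := by
  obtain ⟨G, H, hG, h1, h2⟩ := main
  refine ⟨↑G ∪ ↑H, inferInstance, inferInstance, ⟨⟨0, Or.inl G.zero_mem⟩, zero_dim _⟩,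
    ⟨fun n => Subtype.val ⁻¹' (if n = 0 then (G : Set Om) else H), fun n => ?_, ?_⟩, ?_⟩
  · cases n
    · exact homog_sub Set.subset_union_left (homog G)
    · exact homog_sub Set.subset_union_right (homog H)
  · refine Set.eq_univ_of_forall fun x => Set.mem_iUnion.2 ?_
    rcases x.2 with h | h
    · exact ⟨0, by simpa using h⟩
    · exact ⟨1, by simpa using h⟩
  · rintro ⟨Z, hZ, hU⟩
    obtain ⟨n, hn⟩ := h2 (fun n => closure (Subtype.val '' Z n)) (fun _ => isClosed_closure) (by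
      intro x hx
      obtain ⟨n, hn⟩ := Set.mem_iUnion.1 (hU ▸ Set.mem_univ (⟨x, Or.inl hx⟩ : (↑G ∪ ↑H : Set Om)))
      exact Set.mem_iUnion.2 ⟨n, subset_closure ⟨_, hn, rfl⟩⟩)
    have hcl : closure (Subtype.val '' Z n) ∩ (↑G ∪ ↑H) ⊆ Subtype.val '' Z n := by
      rintro x ⟨h, hx⟩
      refine ⟨⟨x, hx⟩, ?_, rfl⟩
      rw [← (hZ n).1.closure_eq, Topology.IsInducing.subtypeVal.closure_eq_preimage_closure_image]
      exact h
    have hh : Homogeneous (Subtype.val '' Z n : Set Om) :=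
      homog_equiv (Topology.IsEmbedding.subtypeVal.homeomorphImage (Z n)).symm (hZ n).2
    have hsub : interior (closure (Subtype.val '' Z n)) ∩ (↑G ∪ ↑H) ⊆ Subtype.val '' Z n :=
      fun x hx => hcl ⟨interior_subset hx.1, hx.2⟩
    obtain ⟨x, x1, x2⟩ := hG.inter_open_nonempty _ isOpen_interior hn
    have : (nhdsWithin x {x}ᶜ).NeBot := ⟨fun hb => by
      have h0 : IsOpen ({0} : Set Om) := by
        have := ((isOpen_singleton_iff_punctured_nhds x).2 hb).preimage (continuous_add_const x)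
        convert this using 1
        ext u; simp
      have := discreteTopology_of_isOpen_singleton_zero h0
      exact (finite_of_compact_of_discrete (X := Om)).not_infinite inferInstance⟩
    obtain ⟨y, ⟨y1, y3⟩, y2⟩ := hG.inter_open_nonempty _ (isOpen_interior.inter
      (isOpen_compl_singleton (x := x)))
      ((dense_compl_singleton x).inter_open_nonempty _ isOpen_interior hn)
    obtain ⟨h, e⟩ := hh ⟨x, hsub ⟨x1, Or.inl x2⟩⟩ ⟨y, hsub ⟨y1, Or.inl y2⟩⟩
    have := h1 _ (by rintro _ ⟨u, -, rfl⟩; exact u.2) hcl _ isOpen_interior hsub h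
      ⟨x, hsub ⟨x1, Or.inl x2⟩⟩ x1
    rw [e] at this
    exact y3 (congrArg Subtype.val this)

end Pool.Agent.Results.MP_27e890_gt.Yes
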